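import Pool.Agent.H88.GT.Nb
import Pool.Agent.H79.GT.Targets

/-!
# The inverse of the mass radius
-/

namespace Pool.Agent.H88.GT

open MeasureTheory Set Filter Topology
open Pool.Agent.H79.GT

theorem dns_f_int {f p : ℝ → ℝ} {l u : ℝ} (hD : Dns f p l u) : IntegrableOn f (Ioo l u) := by
  have h1 : IntegrableOn (fun x => 1 + f x ^ 2) (Ioo l u) :=
    (integrableOn_const (by simp)).add hD.sq
  apply Integrable.mono' h1 hD.meas.aestronglyMeasurable
  refine Eventually.of_forall fun x => ?_
  rw [Real.norm_eq_abs, abs_of_nonneg (hD.nonneg x)]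
  nlinarith [sq_nonneg (f x - 1), hD.nonneg x]

/-- continuous approximation in the mean square -/
theorem approx_sq (f : ℝ → ℝ) (l u : ℝ) (hf : Measurable f)
    (hsq : IntegrableOn (fun x => f x ^ 2) (Ioo l u)) (ε : ℝ) (hε : 0 < ε) :
    ∃ g : ℝ → ℝ, Continuous g ∧ HasCompactSupport g ∧
      IntegrableOn (fun x => (f x - g x) ^ 2) (Ioo l u) ∧
      ∫ x in Ioo l u, (f x - g x) ^ 2 ≤ ε := by
  set F := (Ioo l u).indicator f with hF
  have hFm : Measurable F := hf.indicator measurableSet_Ioo
  have hF2 : MemLp F 2 volume := by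
    rw [memLp_two_iff_integrable_sq hFm.aestronglyMeasurable]
    have : (fun x => F x ^ 2) = (Ioo l u).indicator (fun x => f x ^ 2) := by
      funext x
      rw [hF]
      by_cases hx : x ∈ Ioo l u
      · rw [indicator_of_mem hx, indicator_of_mem hx]
      · rw [indicator_of_notMem hx, indicator_of_notMem hx]; ring
    rw [this, integrable_indicator_iff measurableSet_Ioo]
    exact hsq
  obtain ⟨g, hgc, hgd, hgcont, hgm⟩ := hF2.exists_hasCompactSupport_eLpNorm_sub_le
    (by norm_num) (ε := ENNReal.ofReal (Real.sqrt ε)) (by simp [hε])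
  have hd : MemLp (F - g) 2 volume := hF2.sub hgm
  have hi : Integrable (fun x => (F x - g x) ^ 2) :=
    (memLp_two_iff_integrable_sq hd.1).1 hd
  have hle : ∫ x, (F x - g x) ^ 2 ≤ ε := by
    have h1 : (eLpNorm (F - g) 2 volume) ^ 2 ≤ ENNReal.ofReal ε := by
      calc (eLpNorm (F - g) 2 volume) ^ 2 ≤ (ENNReal.ofReal (Real.sqrt ε)) ^ 2 := by gcongr
        _ = ENNReal.ofReal ε := by
            rw [← ENNReal.ofReal_pow (Real.sqrt_nonneg _), Real.sq_sqrt hε.le]
    have h2 : (eLpNorm (F - g) 2 volume) ^ 2 = ∫⁻ x, ENNReal.ofReal ((F x - g x) ^ 2) := by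
      rw [eLpNorm_eq_lintegral_rpow_enorm_toReal (by norm_num) (by norm_num)]
      simp only [ENNReal.toReal_ofNat, ENNReal.rpow_ofNat, one_div]
      rw [← ENNReal.rpow_natCast, ← ENNReal.rpow_mul]
      norm_num
      congr 1
      funext x
      rw [← ofReal_norm, ← ENNReal.ofReal_pow (norm_nonneg _)]
      simp
    rw [h2, ← ofReal_integral_eq_lintegral_ofReal hi (Eventually.of_forall fun x => sq_nonneg _)]
      at h1
    exact (ENNReal.ofReal_le_ofReal_iff hε.le).1 h1
  refine ⟨g, hgcont, hgc, ?_, ?_⟩
  · apply (hi.integrableOn (s := Ioo l u)).congr_fun _ measurableSet_Ioo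
    intro x hx
    simp only [hF, indicator_of_mem hx]
  · calc ∫ x in Ioo l u, (f x - g x) ^ 2 = ∫ x in Ioo l u, (F x - g x) ^ 2 := by
          apply setIntegral_congr_fun measurableSet_Ioo
          intro x hx
          simp only [hF, indicator_of_mem hx]
      _ ≤ ∫ x, (F x - g x) ^ 2 :=
          setIntegral_le_integral hi (Eventually.of_forall fun x => sq_nonneg _)
      _ ≤ ε := hle

/-- the set of the points of the open interval outside the zones is measurable -/
theorem meas_nz {f p : ℝ → ℝ} {l u : ℝ} (hD : Dns f p l u) (r : ℝ) :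
    MeasurableSet {x | x ∈ Ioo l u ∧ ¬ Zn p l u r x} := by
  apply OrdConnected.measurableSet
  have hm : ∀ x y, l ≤ x → x ≤ y → y ≤ u → p x ≤ p y := by
    intro x y hx hxy hy
    rcases hxy.eq_or_lt with h | h
    · rw [h]
    · exact (hD.inc x y hx h hy).le
  constructor
  rintro a ⟨ha1, ha2⟩ b ⟨hb1, hb2⟩ x ⟨hx1, hx2⟩
  unfold Zn at ha2 hb2
  push Not at ha2 hb2
  refine ⟨⟨lt_of_lt_of_le ha1.1 hx1, lt_of_le_of_lt hx2 hb1.2⟩, ?_⟩
  unfold Zn
  push Not
  have h1 := hm a x ha1.1.le hx1 (hx2.trans hb1.2.le)
  have h2 := hm x b (ha1.1.le.trans hx1) hx2 hb1.2.le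
  constructor <;> linarith [ha2.1, hb2.2]

open Classical in
theorem pf_T_INV (hRAD : T_RAD) (hSM : T_SM) : T_INV := by
  intro f p l u hD δ hδ
  obtain ⟨g, hgc, hgs, hdi, hdle⟩ := approx_sq f l u hD.meas hD.sq (δ / 2000) (by positivity)
  have hlu := hD.lt
  set D : ℝ → ℝ := fun x => |f x - g x| with hDdef
  have hD0 : ∀ x, 0 ≤ D x := fun x => abs_nonneg _
  have hDsq : ∀ x, D x ^ 2 = (f x - g x) ^ 2 := fun x => sq_abs _
  set ω := Real.sqrt (δ / (2000 * (u - l))) with hω
  have hul : 0 < u - l := by linarith
  have hω0 : 0 < ω := by rw [hω]; positivity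
  have hω2 : ω ^ 2 * (u - l) = δ / 2000 := by
    rw [hω, Real.sq_sqrt (by positivity)]
    field_simp
  have hu : UniformContinuous g := hgs.uniformContinuous_of_continuous hgc
  rw [Metric.uniformContinuous_iff] at hu
  obtain ⟨η, hη, hu⟩ := hu ω hω0
  obtain ⟨r₀, hr₀, hr⟩ := hSM f p l u hD (η / 2) (by positivity)
  refine ⟨r₀, hr₀, fun r hr0 hrr => ?_⟩
  obtain ⟨R1, R2, R3, R4⟩ := hRAD f p l u hD r hr0
  set R := rad p l u r with hR
  have hRc : Continuous R := by
    have : LipschitzWith 1 R := LipschitzWith.of_dist_le_mul (by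
      intro x y; rw [Real.dist_eq, Real.dist_eq]; simpa using R3 x y)
    exact this.continuous
  set A : Set ℝ := {x | x ∈ Ioo l u ∧ ¬ Zn p l u r x} with hA
  have hAm : MeasurableSet A := meas_nz hD r
  set e : ℝ → ℝ := A.indicator (fun x => max 0 (r / R x - 4 * f x)) with he
  have hem : Measurable e := by
    apply Measurable.indicator _ hAm
    exact measurable_const.max ((measurable_const.div hRc.measurable).sub (hD.meas.const_mul 4))
  have he0 : ∀ x, 0 ≤ e x := fun x => indicator_nonneg (fun _ _ => le_max_left _ _) x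
  have hfi := dns_f_int hD
  have hgi : ∀ a b : ℝ, IntervalIntegrable g volume a b := fun a b => hgc.intervalIntegrable a b
  -- the points at which the error has large mass
  set E : Set ℝ := {x | x ∈ A ∧ r / 2 ≤ ∫ z in (x - R x)..(x + R x), D z} with hE
  have hDi1 : IntegrableOn D (Ioc l u) := by
    rw [integrableOn_Ioc_iff_integrableOn_Ioo]
    exact (hfi.sub ((hgc.integrableOn_Icc (a := l) (b := u)).mono_set Ioo_subset_Icc_self)).abs
  have hDi2 : IntegrableOn (fun x => D x ^ 2) (Ioc l u) := by
    rw [integrableOn_Ioc_iff_integrableOn_Ioo]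
    simp_rw [hDsq]
    exact hdi
  have hNB := NB D l u hlu hD0 hDi1 hDi2 (r / 2) (by positivity) R E (by
    rintro x ⟨⟨hx1, hx2⟩, hx3⟩
    obtain ⟨a1, a2, a3, a4⟩ := R1 x hx1.1.le hx1.2.le
    exact ⟨a2, R2 x hx1.1 hx1.2, a3, hx3⟩)
  have hDint : ∫ x in l..u, D x ^ 2 ≤ δ / 2000 := by
    rw [intervalIntegral.integral_of_le hlu.le, integral_Ioc_eq_integral_Ioo]
    simp_rw [hDsq]
    exact hdle
  -- pointwise bound
  have hpt : ∀ x ∈ A, x ∉ E → e x ≤ 4 * D x + 4 * ω := by
    rintro x hxA hxE
    have hx : x ∈ Ioo l u := hxA.1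
    have hm : ∫ z in (x - R x)..(x + R x), D z < r / 2 := by
      by_contra hcon
      exact hxE ⟨hxA, not_lt.1 hcon⟩
    obtain ⟨a1, a2, a3, a4⟩ := R1 x hx.1.le hx.2.le
    have hRx := R2 x hx.1 hx.2
    have hmass := R4 x hx.1.le hx.2.le hxA.2
    have hab : x - R x ≤ x + R x := by linarith
    rw [hD.mass (x - R x) (x + R x) a2 hab a3, ← integral_Ioc_eq_integral_Ioo,
      ← intervalIntegral.integral_of_le hab] at hmass
    have i1 : IntervalIntegrable f volume (x - R x) (x + R x) := by
      rw [intervalIntegrable_iff_integrableOn_Ioo_of_le hab]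
      exact hfi.mono_set (Ioo_subset_Ioo a2 a3)
    have i2 : IntervalIntegrable D volume (x - R x) (x + R x) := by
      rw [intervalIntegrable_iff_integrableOn_Ioc_of_le hab]
      exact hDi1.mono_set (Ioc_subset_Ioc a2 a3)
    have h1 : ∫ z in (x - R x)..(x + R x), f z ≤
        (∫ z in (x - R x)..(x + R x), g z) + ∫ z in (x - R x)..(x + R x), D z := by
      rw [← intervalIntegral.integral_add (hgi _ _) i2]
      apply intervalIntegral.integral_mono_on hab i1 ((hgi _ _).add i2)
      intro z _
      have := le_abs_self (f z - g z)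
      simp only [hDdef]
      linarith
    have h2 : ∫ z in (x - R x)..(x + R x), g z ≤ 2 * R x * (g x + ω) := by
      calc ∫ z in (x - R x)..(x + R x), g z ≤ ∫ z in (x - R x)..(x + R x), (g x + ω) := by
            apply intervalIntegral.integral_mono_on hab (hgi _ _) (by simp)
            intro z hz
            have h3 : dist z x < η := by
              rw [Real.dist_eq, abs_lt]
              have := hr r hr0 hrr x
              constructor <;> linarith [hz.1, hz.2]
            have h4 := hu h3
            rw [Real.dist_eq, abs_lt] at h4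
            linarith [h4.2]
        _ = 2 * R x * (g x + ω) := by
            rw [intervalIntegral.integral_const, smul_eq_mul]; ring
    have h5 : r / R x ≤ 4 * (g x + ω) := by
      rw [div_le_iff₀ hRx]
      nlinarith
    have h6 : g x ≤ f x + D x := by
      have := neg_abs_le (f x - g x)
      simp only [hDdef]; linarith
    rw [he, indicator_of_mem hxA]
    apply max_le
    · have := hD0 x; positivity
    · linarith
  have hptE : ∀ x ∈ E, e x ≤ r / R x := by
    rintro x ⟨hxA, _⟩
    rw [he, indicator_of_mem hxA]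
    have hRx := R2 x hxA.1.1 hxA.1.2
    apply max_le (by positivity)
    have := hD.nonneg x
    linarith
  have hlint : ∫⁻ x in Ioo l u, ENNReal.ofReal (e x ^ 2) ≤ ENNReal.ofReal δ := by
    have hd4 : Measurable fun x => ENNReal.ofReal ((4 * D x + 4 * ω) ^ 2) := by
      have : Measurable D := (hD.meas.sub hgc.measurable).abs
      fun_prop
    have hrR : Measurable fun x => ENNReal.ofReal ((r / R x) ^ 2) := by
      have := hRc.measurable
      fun_prop
    have hs : Ioo l u ⊆ E ∪ (Ioo l u \ E) := by
      intro x hx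
      by_cases h : x ∈ E
      · exact Or.inl h
      · exact Or.inr ⟨hx, h⟩
    calc ∫⁻ x in Ioo l u, ENNReal.ofReal (e x ^ 2)
        ≤ ∫⁻ x in E ∪ (Ioo l u \ E), ENNReal.ofReal (e x ^ 2) := lintegral_mono_set hs
      _ ≤ (∫⁻ x in E, ENNReal.ofReal (e x ^ 2)) +
            ∫⁻ x in Ioo l u \ E, ENNReal.ofReal (e x ^ 2) := lintegral_union_le _ _ _
      _ ≤ (∫⁻ x in E, ENNReal.ofReal ((r / R x) ^ 2)) +
            ∫⁻ x in Ioo l u, ENNReal.ofReal ((4 * D x + 4 * ω) ^ 2) := by
          gcongr 1
          · apply setLIntegral_mono hrR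
            intro x hx
            apply ENNReal.ofReal_le_ofReal
            exact pow_le_pow_left₀ (he0 x) (hptE x hx) 2
          · refine (setLIntegral_mono hd4 ?_).trans (lintegral_mono_set sdiff_subset)
            rintro x ⟨hx1, hx2⟩
            apply ENNReal.ofReal_le_ofReal
            by_cases hxA : x ∈ A
            · exact pow_le_pow_left₀ (he0 x) (hpt x hxA hx2) 2
            · rw [he, indicator_of_notMem hxA]
              have := sq_nonneg (4 * D x + 4 * ω)
              simpa using this
      _ ≤ ENNReal.ofReal (512 * (δ / 2000)) + ENNReal.ofReal (64 * (δ / 2000)) := by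
          gcongr 1
          · have h4 : ∀ x, ENNReal.ofReal ((r / R x) ^ 2) =
                4 * ENNReal.ofReal ((r / 2 / R x) ^ 2) := by
              intro x
              have : (4 : ENNReal) = ENNReal.ofReal 4 := by norm_num
              rw [this, ← ENNReal.ofReal_mul (by norm_num)]
              congr 1
              ring
            simp_rw [h4]
            rw [lintegral_const_mul' _ _ (by norm_num)]
            refine (mul_le_mul_right hNB 4).trans ?_
            have : (4 : ENNReal) = ENNReal.ofReal 4 := by norm_num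
            rw [this, ← ENNReal.ofReal_mul (by norm_num)]
            apply ENNReal.ofReal_le_ofReal
            linarith
          · have i1 : IntegrableOn (fun x => 32 * D x ^ 2 + 32 * ω ^ 2) (Ioo l u) := by
              apply Integrable.add
              · apply Integrable.const_mul
                rw [← IntegrableOn, ← integrableOn_Ioc_iff_integrableOn_Ioo]
                exact hDi2
              · exact integrableOn_const (by simp)
            calc ∫⁻ x in Ioo l u, ENNReal.ofReal ((4 * D x + 4 * ω) ^ 2)
                ≤ ∫⁻ x in Ioo l u, ENNReal.ofReal (32 * D x ^ 2 + 32 * ω ^ 2) := by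
                  apply lintegral_mono
                  intro x
                  apply ENNReal.ofReal_le_ofReal
                  nlinarith [sq_nonneg (D x - ω)]
              _ = ENNReal.ofReal (∫ x in Ioo l u, (32 * D x ^ 2 + 32 * ω ^ 2)) := by
                  rw [ofReal_integral_eq_lintegral_ofReal i1]
                  exact Eventually.of_forall fun x => by positivity
              _ ≤ ENNReal.ofReal (64 * (δ / 2000)) := by
                  apply ENNReal.ofReal_le_ofReal
                  rw [integral_add, integral_const_mul, setIntegral_const, Measure.real,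
                    Real.volume_Ioo, ENNReal.toReal_ofReal hul.le, smul_eq_mul]
                  · have h7 : ∫ x in Ioo l u, D x ^ 2 ≤ δ / 2000 := by
                      simp_rw [hDsq]; exact hdle
                    have h8 : (u - l) * (32 * ω ^ 2) = 32 * (δ / 2000) := by
                      rw [← hω2]; ring
                    rw [h8]
                    linarith
                  · apply Integrable.const_mul
                    rw [← IntegrableOn, ← integrableOn_Ioc_iff_integrableOn_Ioo]
                    exact hDi2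
                  · exact integrableOn_const (by simp)
      _ ≤ ENNReal.ofReal δ := by
          rw [← ENNReal.ofReal_add (by positivity) (by positivity)]
          apply ENNReal.ofReal_le_ofReal
          linarith
  have hei : IntegrableOn (fun x => e x ^ 2) (Ioo l u) := by
    refine ⟨(hem.pow_const 2).aestronglyMeasurable, ?_⟩
    rw [hasFiniteIntegral_iff_ofReal (Eventually.of_forall fun x => sq_nonneg _)]
    exact hlint.trans_lt ENNReal.ofReal_lt_top
  refine ⟨e, hem, he0, hei, ?_, ?_⟩
  · rw [← ENNReal.ofReal_le_ofReal_iff hδ.le,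
      ofReal_integral_eq_lintegral_ofReal hei (Eventually.of_forall fun x => sq_nonneg _)]
    exact hlint
  · intro x hx1 hx2 hx3
    have hxA : x ∈ A := ⟨⟨hx1, hx2⟩, hx3⟩
    have : r / R x - 4 * f x ≤ e x := by
      rw [he, indicator_of_mem hxA]
      exact le_max_right _ _
    linarith

end Pool.Agent.H88.GT
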