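import Mathlib

/-!
# Averages with variable radius

`R : ℝ → ℝ` is a nonnegative 1-Lipschitz function. Averages over `|y - x| < R x / 2` and tent
averages of radius `R x / 4`.
-/

namespace Pool.Agent.H88.GT

open MeasureTheory Set Filter Topology

/-- radius functions -/
structure Rad (R : ℝ → ℝ) : Prop where
  nn : ∀ x, 0 ≤ R x
  lip : ∀ x y, |R x - R y| ≤ |x - y|

theorem Rad.cont {R : ℝ → ℝ} (h : Rad R) : Continuous R := by
  have : LipschitzWith 1 R := LipschitzWith.of_dist_le_mul (by
    intro x y; rw [Real.dist_eq, Real.dist_eq]; simpa using h.lip x y)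
  exact this.continuous

/-- sharp kernel -/
noncomputable def kk (R : ℝ → ℝ) (x y : ℝ) : ℝ := if |y - x| < R x / 2 then 1 / R x else 0

/-- tent kernel -/
noncomputable def K (R : ℝ → ℝ) (x y : ℝ) : ℝ := max 0 (R x / 4 - |y - x|) / (R x / 4) ^ 2

/-- sharp average -/
noncomputable def Mv (R : ℝ → ℝ) (g : ℝ → ℝ) (x : ℝ) : ℝ := ∫ y, kk R x y * g y

/-- tent average -/
noncomputable def Av {E : Type*} [NormedAddCommGroup E] [NormedSpace ℝ E] (R : ℝ → ℝ)
    (φ : ℝ → E) (x : ℝ) : E := ∫ y, K R x y • φ y

variable {R : ℝ → ℝ}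

theorem kk_nonneg (h : Rad R) (x y : ℝ) : 0 ≤ kk R x y := by
  unfold kk
  split_ifs
  · exact div_nonneg zero_le_one (h.nn x)
  · exact le_rfl

theorem kk_meas (h : Rad R) : Measurable (Function.uncurry (kk R)) := by
  unfold Function.uncurry kk
  apply Measurable.ite
  · exact measurableSet_lt (by fun_prop) ((h.cont.measurable.comp measurable_fst).div_const 2)
  · exact (measurable_const.div (h.cont.measurable.comp measurable_fst))
  · exact measurable_const

theorem K_nonneg (x y : ℝ) : 0 ≤ K R x y := by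
  unfold K
  positivity

theorem K_cont (x : ℝ) : Continuous (K R x) := by
  unfold K
  fun_prop

theorem K_le_kk (h : Rad R) (x y : ℝ) : K R x y ≤ 4 * kk R x y := by
  unfold K kk
  rcases (h.nn x).eq_or_lt with h0 | h0
  · rw [← h0]
    have : max (0:ℝ) (0 / 4 - |y - x|) = 0 := by
      apply max_eq_left
      have := abs_nonneg (y - x)
      linarith
    rw [this]; simp
  · split_ifs with h1
    · rw [div_le_iff₀ (by positivity)]
      have : 4 * (1 / R x) * (R x / 4) ^ 2 = R x / 4 := by field_simp
      rw [this]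
      apply max_le (by positivity)
      have := abs_nonneg (y - x)
      linarith
    · have : max (0:ℝ) (R x / 4 - |y - x|) = 0 := by
        apply max_eq_left
        push Not at h1
        linarith
      rw [this]; simp

theorem kk_le (h : Rad R) (x y : ℝ) : kk R x y ≤ 1 / R x := by
  unfold kk
  split_ifs
  · exact le_rfl
  · exact div_nonneg zero_le_one (h.nn x)

/-- the integral of the sharp kernel over `y` -/
theorem kk_int (x : ℝ) (h0 : 0 < R x) : ∫ y, kk R x y = 1 := by
  have h1 : (fun y => kk R x y) = (Ioo (x - R x / 2) (x + R x / 2)).indicator (fun _ => 1 / R x) := by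
    funext y
    unfold kk Set.indicator
    have : |y - x| < R x / 2 ↔ y ∈ Ioo (x - R x / 2) (x + R x / 2) := by
      rw [abs_lt, mem_Ioo]
      constructor
      · rintro ⟨a, b⟩; constructor <;> linarith
      · rintro ⟨a, b⟩; constructor <;> linarith
    simp only [this]
  rw [h1, integral_indicator measurableSet_Ioo, setIntegral_const, Measure.real, Real.volume_Ioo,
    ENNReal.toReal_ofReal (by linarith), smul_eq_mul]
  field_simp
  ring

/-- the support of the kernel in `x` -/
theorem kk_adj (h : Rad R) (x y : ℝ) : kk R x y ≤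
    if |x - y| < R y ∧ 0 < R y then 3 / (2 * R y) else 0 := by
  unfold kk
  split_ifs with h1 h2 h2
  · have hx : 0 < R x := by
      have := abs_nonneg (y - x); linarith
    have := h.lip x y
    have h3 := abs_le.1 this
    rw [abs_sub_comm] at h1
    rw [div_le_div_iff₀ hx (by linarith [h2.2])]
    have := abs_sub_comm x y
    nlinarith
  · exfalso
    apply h2
    have hx : 0 < R x := by
      have := abs_nonneg (y - x); linarith
    have := h.lip x y
    have h3 := abs_le.1 this
    rw [abs_sub_comm] at h1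
    have h4 : R x ≤ 2 * R y := by linarith
    constructor <;> linarith
  · exact div_nonneg (by norm_num) (by linarith [h.nn y])
  · exact le_rfl

/-- the integral of the sharp kernel over `x` -/
theorem kk_adj_lint (h : Rad R) (y : ℝ) :
    ∫⁻ x, ENNReal.ofReal (kk R x y) ≤ 3 := by
  rcases (h.nn y).eq_or_lt with h0 | h0
  · have : ∀ x, kk R x y ≤ 0 := by
      intro x
      have := kk_adj h x y
      rw [← h0] at this
      simpa using this
    calc ∫⁻ x, ENNReal.ofReal (kk R x y) = ∫⁻ x, 0 := by
          congr 1; funext x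
          rw [ENNReal.ofReal_eq_zero]; exact this x
      _ ≤ 3 := by simp
  · calc ∫⁻ x, ENNReal.ofReal (kk R x y)
        ≤ ∫⁻ x, (Ioo (y - R y) (y + R y)).indicator (fun _ => ENNReal.ofReal (3 / (2 * R y))) x := by
          apply lintegral_mono
          intro x
          have h1 := kk_adj h x y
          unfold Set.indicator
          have h2 : x ∈ Ioo (y - R y) (y + R y) ↔ |x - y| < R y := by
            rw [abs_lt, mem_Ioo]
            constructor
            · rintro ⟨a, b⟩; constructor <;> linarith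
            · rintro ⟨a, b⟩; constructor <;> linarith
          simp only [h2]
          split_ifs with h3
          · rw [if_pos ⟨h3, h0⟩] at h1
            exact ENNReal.ofReal_le_ofReal h1
          · rw [if_neg (fun hh => h3 hh.1)] at h1
            rw [ENNReal.ofReal_eq_zero.2 h1]
      _ = 3 := by
          rw [lintegral_indicator measurableSet_Ioo, setLIntegral_const, Real.volume_Ioo,
            ← ENNReal.ofReal_mul (by positivity)]
          have : 3 / (2 * R y) * (y + R y - (y - R y)) = 3 := by
            field_simp; ring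
          rw [this]
          norm_num

/-- `L¹` bound in the form with nonnegative functions -/
theorem kk_lint (h : Rad R) (g : ℝ → ENNReal) (hg : Measurable g) :
    ∫⁻ x, ∫⁻ y, ENNReal.ofReal (kk R x y) * g y ≤ 3 * ∫⁻ y, g y := by
  rw [lintegral_lintegral_swap]
  · calc ∫⁻ y, ∫⁻ x, ENNReal.ofReal (kk R x y) * g y
        = ∫⁻ y, (∫⁻ x, ENNReal.ofReal (kk R x y)) * g y := by
          congr 1; funext y
          rw [lintegral_mul_const]
          exact ((kk_meas h).comp (measurable_id.prodMk measurable_const)).ennreal_ofReal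
      _ ≤ ∫⁻ y, 3 * g y := by
          apply lintegral_mono
          intro y
          exact mul_le_mul_left (kk_adj_lint h y) _
      _ = 3 * ∫⁻ y, g y := lintegral_const_mul _ hg
  · exact ((kk_meas h).ennreal_ofReal.mul (hg.comp measurable_snd)).aemeasurable

/-- weighted `L¹` bound in the form with nonnegative functions -/
theorem kk_lint_w (h : Rad R) (g w : ℝ → ENNReal) (hg : Measurable g) (hw : Measurable w)
    (c : ENNReal) (hwc : ∀ x y, |y - x| < R x / 2 → w x ≤ c * w y) :
    ∫⁻ x, w x * ∫⁻ y, ENNReal.ofReal (kk R x y) * g y ≤ 3 * (c * ∫⁻ y, w y * g y) := by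
  calc ∫⁻ x, w x * ∫⁻ y, ENNReal.ofReal (kk R x y) * g y
      = ∫⁻ x, ∫⁻ y, w x * (ENNReal.ofReal (kk R x y) * g y) := by
        congr 1; funext x
        rw [lintegral_const_mul]
        exact ((kk_meas h).comp (measurable_const.prodMk measurable_id)).ennreal_ofReal.mul hg
    _ ≤ ∫⁻ x, ∫⁻ y, ENNReal.ofReal (kk R x y) * (c * (w y * g y)) := by
        apply lintegral_mono; intro x
        apply lintegral_mono; intro y
        by_cases hxy : |y - x| < R x / 2
        · calc w x * (ENNReal.ofReal (kk R x y) * g y)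
              ≤ (c * w y) * (ENNReal.ofReal (kk R x y) * g y) := by
                gcongr; exact hwc x y hxy
            _ = ENNReal.ofReal (kk R x y) * (c * (w y * g y)) := by ring
        · have : kk R x y = 0 := by unfold kk; rw [if_neg hxy]
          simp [this]
    _ ≤ 3 * ∫⁻ y, c * (w y * g y) := kk_lint h _ (measurable_const.mul (hw.mul hg))
    _ = 3 * (c * ∫⁻ y, w y * g y) := by
        rw [lintegral_const_mul c (f := fun y => w y * g y) (hw.mul hg)]

/-! ## Real integrals -/

theorem kk_eq_ind (x : ℝ) (g : ℝ → ℝ) : (fun y => kk R x y * g y) =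
    (Ioo (x - R x / 2) (x + R x / 2)).indicator (fun y => 1 / R x * g y) := by
  funext y
  unfold kk Set.indicator
  have : |y - x| < R x / 2 ↔ y ∈ Ioo (x - R x / 2) (x + R x / 2) := by
    rw [abs_lt, mem_Ioo]
    constructor
    · rintro ⟨a, b⟩; constructor <;> linarith
    · rintro ⟨a, b⟩; constructor <;> linarith
  simp only [this]
  split_ifs <;> simp

theorem kk_mul_int {g : ℝ → ℝ} (hg : LocallyIntegrable g) (x : ℝ) :
    Integrable (fun y => kk R x y * g y) := by
  rw [kk_eq_ind, integrable_indicator_iff measurableSet_Ioo]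
  exact ((hg.integrableOn_isCompact isCompact_Icc).mono_set Ioo_subset_Icc_self).const_mul _

theorem Mv_eq (x : ℝ) (g : ℝ → ℝ) :
    Mv R g x = 1 / R x * ∫ y in Ioo (x - R x / 2) (x + R x / 2), g y := by
  unfold Mv
  rw [kk_eq_ind, integral_indicator measurableSet_Ioo, integral_const_mul]

theorem Mv_nonneg (h : Rad R) {g : ℝ → ℝ} (hg0 : ∀ y, 0 ≤ g y) (x : ℝ) : 0 ≤ Mv R g x :=
  integral_nonneg fun y => mul_nonneg (kk_nonneg h x y) (hg0 y)

theorem Mv_mono (h : Rad R) {g g' : ℝ → ℝ} (hg : LocallyIntegrable g)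
    (hg' : LocallyIntegrable g')
    (hle : ∀ y, g y ≤ g' y) (x : ℝ) : Mv R g x ≤ Mv R g' x := by
  apply integral_mono (kk_mul_int hg x) (kk_mul_int hg' x)
  intro y
  exact mul_le_mul_of_nonneg_left (hle y) (kk_nonneg h x y)

theorem Mv_add {g g' : ℝ → ℝ} (hg : LocallyIntegrable g) (hg' : LocallyIntegrable g') (x : ℝ) :
    Mv R (fun y => g y + g' y) x = Mv R g x + Mv R g' x := by
  unfold Mv
  rw [← integral_add (kk_mul_int hg x) (kk_mul_int hg' x)]
  congr 1; funext y; ring

theorem Mv_ofReal (h : Rad R) {g : ℝ → ℝ} (hg : LocallyIntegrable g) (hg0 : ∀ y, 0 ≤ g y) (x : ℝ) :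
    ENNReal.ofReal (Mv R g x) = ∫⁻ y, ENNReal.ofReal (kk R x y) * ENNReal.ofReal (g y) := by
  unfold Mv
  rw [ofReal_integral_eq_lintegral_ofReal (kk_mul_int hg x)
    (Eventually.of_forall fun y => mul_nonneg (kk_nonneg h x y) (hg0 y))]
  congr 1; funext y
  rw [ENNReal.ofReal_mul (kk_nonneg h x y)]

/-- measurability of the sharp average -/
theorem Mv_meas (h : Rad R) {g : ℝ → ℝ} (hg : Measurable g) :
    StronglyMeasurable (Mv R g) := by
  have : StronglyMeasurable (Function.uncurry fun x y => kk R x y * g y) :=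
    ((kk_meas h).mul (hg.comp measurable_snd)).stronglyMeasurable
  exact this.integral_prod_right

/-- weighted `L¹` bound -/
theorem Mv_w (h : Rad R) {g w : ℝ → ℝ} (hgm : Measurable g) (hg : Integrable g)
    (hg0 : ∀ y, 0 ≤ g y) (hw : Measurable w) (hw0 : ∀ y, 0 ≤ w y) (W : ℝ) (hW : ∀ y, w y ≤ W)
    (c : ℝ) (hc : 0 ≤ c) (hwc : ∀ x y, |y - x| < R x / 2 → w x ≤ c * w y) :
    Integrable (fun x => w x * Mv R g x) ∧
      ∫ x, w x * Mv R g x ≤ 3 * (c * ∫ y, w y * g y) := by
  have hwg : Integrable (fun y => w y * g y) := by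
    apply Integrable.bdd_mul (c := W) hg hw.aestronglyMeasurable
    refine Eventually.of_forall fun y => ?_
    rw [Real.norm_eq_abs, abs_of_nonneg (hw0 y)]; exact hW y
  have h1 : ∀ x, ENNReal.ofReal (w x * Mv R g x) =
      ENNReal.ofReal (w x) * ∫⁻ y, ENNReal.ofReal (kk R x y) * ENNReal.ofReal (g y) := by
    intro x
    rw [ENNReal.ofReal_mul (hw0 x), Mv_ofReal h hg.locallyIntegrable hg0]
  have h2 : ∫⁻ x, ENNReal.ofReal (w x * Mv R g x) ≤
      ENNReal.ofReal (3 * (c * ∫ y, w y * g y)) := by
    simp_rw [h1]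
    refine (kk_lint_w h (fun y => ENNReal.ofReal (g y)) (fun y => ENNReal.ofReal (w y))
      hgm.ennreal_ofReal hw.ennreal_ofReal (ENNReal.ofReal c) ?_).trans ?_
    · intro x y hxy
      rw [← ENNReal.ofReal_mul hc]
      exact ENNReal.ofReal_le_ofReal (hwc x y hxy)
    · rw [ENNReal.ofReal_mul (by norm_num), ENNReal.ofReal_mul hc,
        ofReal_integral_eq_lintegral_ofReal hwg
          (Eventually.of_forall fun y => mul_nonneg (hw0 y) (hg0 y))]
      have : ∀ y, ENNReal.ofReal (w y) * ENNReal.ofReal (g y) = ENNReal.ofReal (w y * g y) :=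
        fun y => (ENNReal.ofReal_mul (hw0 y)).symm
      simp_rw [this]
      norm_num
  have hm : AEStronglyMeasurable (fun x => w x * Mv R g x) volume :=
    (hw.stronglyMeasurable.mul (Mv_meas h hgm)).aestronglyMeasurable
  have hn : ∀ x, 0 ≤ w x * Mv R g x := fun x => mul_nonneg (hw0 x) (Mv_nonneg h hg0 x)
  have hi : Integrable (fun x => w x * Mv R g x) := by
    refine ⟨hm, ?_⟩
    rw [hasFiniteIntegral_iff_ofReal (Eventually.of_forall hn)]
    exact h2.trans_lt ENNReal.ofReal_lt_top
  refine ⟨hi, ?_⟩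
  rw [← ENNReal.ofReal_le_ofReal_iff, ofReal_integral_eq_lintegral_ofReal hi
    (Eventually.of_forall hn)]
  · exact h2
  · exact mul_nonneg (by norm_num) (mul_nonneg hc
      (integral_nonneg fun y => mul_nonneg (hw0 y) (hg0 y)))

/-- `L¹` bound -/
theorem Mv_L1 (h : Rad R) {g : ℝ → ℝ} (hgm : Measurable g) (hg : Integrable g)
    (hg0 : ∀ y, 0 ≤ g y) : Integrable (Mv R g) ∧ ∫ x, Mv R g x ≤ 3 * ∫ y, g y := by
  have := Mv_w h hgm hg hg0 (w := fun _ => 1) measurable_const (fun _ => zero_le_one) 1
    (fun _ => le_rfl) 1 zero_le_one (fun _ _ _ => by norm_num)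
  simpa using this

/-- Jensen's inequality for the sharp average -/
theorem Mv_sq (h : Rad R) {g : ℝ → ℝ} (hg : LocallyIntegrable g)
    (hg2 : LocallyIntegrable fun y => g y ^ 2) (x : ℝ) : Mv R g x ^ 2 ≤ Mv R (fun y => g y ^ 2) x := by
  rcases (h.nn x).eq_or_lt with h0 | h0
  · have : ∀ y, kk R x y = 0 := by
      intro y; unfold kk; rw [if_neg]
      rw [← h0]; have := abs_nonneg (y - x); linarith
    unfold Mv
    simp [this]
  · set m := Mv R g x with hm
    have h1 : 0 ≤ ∫ y, kk R x y * (g y - m) ^ 2 :=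
      integral_nonneg fun y => mul_nonneg (kk_nonneg h x y) (sq_nonneg _)
    have hk : Integrable (fun y => kk R x y) := by
      have h2 := kk_int x h0
      by_contra hcon
      rw [integral_undef hcon] at h2
      norm_num at h2
    have e1 := kk_mul_int (R := R) hg2 x
    have e2 := kk_mul_int (R := R) hg x
    have h3 : ∫ y, kk R x y * (g y - m) ^ 2 = Mv R (fun y => g y ^ 2) x - 2 * m * m + m ^ 2 := by
      have : (fun y => kk R x y * (g y - m) ^ 2) =
          fun y => (kk R x y * g y ^ 2 - (2 * m) * (kk R x y * g y)) + m ^ 2 * kk R x y := by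
        funext y; ring
      rw [this, integral_add, integral_sub, integral_const_mul, integral_const_mul, kk_int x h0]
      · have h4 : ∫ y, kk R x y * g y = m := by rw [hm]; rfl
        rw [h4]; unfold Mv; ring
      · exact e1
      · exact e2.const_mul _
      · exact e1.sub (e2.const_mul _)
      · exact hk.const_mul _
    rw [h3] at h1
    nlinarith

end Pool.Agent.H88.GT
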