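import Pool.Agent.H88.GT.Av

/-!
# Averages with variable radius: tent averages and oscillation
-/

namespace Pool.Agent.H88.GT

open MeasureTheory Set Filter Topology

variable {R : ℝ → ℝ}

theorem K_supp (x y : ℝ) (hxy : R x / 4 ≤ |y - x|) : K R x y = 0 := by
  unfold K
  rw [max_eq_left (by linarith)]
  simp

/-- integral of the tent kernel -/
theorem K_int (x : ℝ) (h0 : 0 < R x) : ∫ y, K R x y = 1 := by
  set ρ := R x / 4 with hρ
  have hρ0 : 0 < ρ := by positivity
  have h1 : ∫ y, K R x y = ∫ y in (x - ρ)..(x + ρ), K R x y := by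
    rw [intervalIntegral.integral_of_le (by linarith), ← integral_Icc_eq_integral_Ioc]
    symm
    apply setIntegral_eq_integral_of_forall_compl_eq_zero
    intro y hy
    unfold K
    rw [max_eq_left]
    · simp
    · rw [mem_Icc, not_and_or, not_le, not_le] at hy
      rw [← hρ]
      rcases hy with hy | hy
      · have := neg_abs_le (y - x); linarith
      · have := le_abs_self (y - x); linarith
  rw [h1, ← intervalIntegral.integral_add_adjacent_intervals (b := x)]
  · have e1 : ∫ y in (x - ρ)..x, K R x y = ∫ y in (x - ρ)..x, (ρ - x + y) / ρ ^ 2 := by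
      apply intervalIntegral.integral_congr
      intro y hy
      rw [uIcc_of_le (by linarith), mem_Icc] at hy
      unfold K
      simp only []
      rw [← hρ, abs_of_nonpos (by linarith [hy.2]), max_eq_right (by linarith [hy.1])]
      ring
    have e2 : ∫ y in x..(x + ρ), K R x y = ∫ y in x..(x + ρ), (ρ + x - y) / ρ ^ 2 := by
      apply intervalIntegral.integral_congr
      intro y hy
      rw [uIcc_of_le (by linarith), mem_Icc] at hy
      unfold K
      simp only []
      rw [← hρ, abs_of_nonneg (by linarith [hy.1]), max_eq_right (by linarith [hy.2])]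
      ring
    have e3 : ∫ y in (x - ρ)..x, (ρ - x + y) = ρ ^ 2 / 2 := by
      rw [intervalIntegral.integral_add (by simp) (by simp)]
      simp only [intervalIntegral.integral_const, smul_eq_mul, integral_id]
      ring
    have e4 : ∫ y in x..(x + ρ), (ρ + x - y) = ρ ^ 2 / 2 := by
      rw [intervalIntegral.integral_sub (by simp) (by simp)]
      simp only [intervalIntegral.integral_const, smul_eq_mul, integral_id]
      ring
    rw [e1, e2, intervalIntegral.integral_div, intervalIntegral.integral_div, e3, e4]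
    field_simp
    ring
  · exact (K_cont x).intervalIntegrable _ _
  · exact (K_cont x).intervalIntegrable _ _

/-- the tent kernel is Lipschitz in `x` -/
theorem K_lip (h : Rad R) (x x' y : ℝ) (h0 : 0 < R x) (hx : |x' - x| ≤ R x / 16) :
    |K R x' y - K R x y| ≤ 32 * (|x' - x| / R x) * kk R x y := by
  set ρ := R x / 4 with hρ
  set ρ' := R x' / 4 with hρ'
  set δ := |x' - x| with hδ
  have hδ0 : 0 ≤ δ := abs_nonneg _
  have hl := abs_le.1 (h.lip x' x)
  have hρ0 : 0 < ρ := by positivity
  have hρ1 : ρ - δ / 4 ≤ ρ' := by linarith [hl.1]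
  have hρ2 : ρ' ≤ ρ + δ / 4 := by linarith [hl.2]
  have hδρ : δ ≤ ρ / 4 := by linarith
  have hρ'0 : 0 < ρ' := by linarith
  by_cases hy : |y - x| < R x / 2
  · have hk : kk R x y = 1 / R x := by unfold kk; rw [if_pos hy]
    rw [hk]
    have hK : K R x y = max 0 (ρ - |y - x|) / ρ ^ 2 := rfl
    have hK' : K R x' y = max 0 (ρ' - |y - x'|) / ρ' ^ 2 := rfl
    set t := max 0 (ρ - |y - x|) with ht
    set t' := max 0 (ρ' - |y - x'|) with ht'
    have ht0 : 0 ≤ t := le_max_left _ _
    have ht'0 : 0 ≤ t' := le_max_left _ _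
    have ht'1 : t' ≤ ρ' := max_le hρ'0.le (by linarith [abs_nonneg (y - x')])
    have hax : |(|y - x'| - |y - x|)| ≤ δ := by
      have := abs_abs_sub_abs_le_abs_sub (y - x') (y - x)
      refine this.trans (le_of_eq ?_)
      rw [hδ, ← abs_neg]; congr 1; ring
    have htt : |t' - t| ≤ 5 / 4 * δ := by
      have h1 : |t' - t| ≤ |(ρ' - |y - x'|) - (ρ - |y - x|)| := by
        rw [ht, ht', max_comm 0, max_comm 0]
        exact abs_max_sub_max_le_abs _ _ _
      have h2 := abs_le.1 hax
      refine h1.trans (abs_le.2 ⟨?_, ?_⟩) <;> linarith [h2.1, h2.2]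
    rw [hK, hK']
    have e : t' / ρ' ^ 2 - t / ρ ^ 2 = (t' - t) / ρ ^ 2 + t' * ((ρ - ρ') * (ρ + ρ')) / (ρ ^ 2 * ρ' ^ 2) := by
      field_simp
      ring
    rw [e]
    have b1 : |(t' - t) / ρ ^ 2| ≤ 5 / 4 * δ / ρ ^ 2 := by
      rw [abs_div, abs_of_pos (by positivity : 0 < ρ ^ 2)]
      gcongr
    have b2 : |t' * ((ρ - ρ') * (ρ + ρ')) / (ρ ^ 2 * ρ' ^ 2)| ≤ 3 / 4 * δ / ρ ^ 2 := by
      rw [abs_div, abs_of_pos (by positivity : 0 < ρ ^ 2 * ρ' ^ 2), abs_mul, abs_mul,
        abs_of_nonneg ht'0, abs_of_pos (by positivity : 0 < ρ + ρ')]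
      have h3 : |ρ - ρ'| ≤ δ / 4 := abs_le.2 ⟨by linarith, by linarith⟩
      have h4 : ρ ≤ 2 * ρ' := by linarith
      rw [div_le_div_iff₀ (by positivity) (by positivity)]
      calc t' * (|ρ - ρ'| * (ρ + ρ')) * ρ ^ 2 ≤ ρ' * (δ / 4 * (ρ + ρ')) * ρ ^ 2 := by gcongr
        _ ≤ ρ' * (δ / 4 * (3 * ρ')) * ρ ^ 2 := by gcongr; linarith
        _ = 3 / 4 * δ * (ρ ^ 2 * ρ' ^ 2) := by ring
    calc |(t' - t) / ρ ^ 2 + t' * ((ρ - ρ') * (ρ + ρ')) / (ρ ^ 2 * ρ' ^ 2)|
        ≤ 5 / 4 * δ / ρ ^ 2 + 3 / 4 * δ / ρ ^ 2 := (abs_add_le _ _).trans (add_le_add b1 b2)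
      _ = 32 * (δ / R x) * (1 / R x) := by rw [hρ]; field_simp; ring
  · have hk : kk R x y = 0 := by unfold kk; rw [if_neg hy]
    push Not at hy
    have h1 : K R x y = 0 := K_supp x y (by linarith)
    have h2 : K R x' y = 0 := by
      apply K_supp
      have h3 : |y - x| ≤ |y - x'| + δ := by
        have := abs_add_le (y - x') (x' - x)
        rw [sub_add_sub_cancel] at this
        exact this
      linarith
    rw [h1, h2, hk]
    simp

section

theorem loc_norm {E : Type*} [NormedAddCommGroup E] {φ : ℝ → E} (hφ : LocallyIntegrable φ) :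
    LocallyIntegrable (fun y => ‖φ y‖) := fun x => by
  obtain ⟨s, hs, h⟩ := hφ x
  exact ⟨s, hs, h.norm⟩

theorem loc_sub {E : Type*} [NormedAddCommGroup E] {φ : ℝ → E} (hφ : LocallyIntegrable φ)
    (c : E) : LocallyIntegrable (fun y => φ y - c) := hφ.sub (locallyIntegrable_const c)

variable {E : Type*} [NormedAddCommGroup E] [NormedSpace ℝ E]

theorem K_mul_int (h : Rad R) {φ : ℝ → E} (hφ : LocallyIntegrable φ) (x : ℝ) :
    Integrable (fun y => K R x y • φ y) := by
  have h1 : Integrable (fun y => 4 * (kk R x y * ‖φ y‖)) :=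
    (kk_mul_int (R := R) (loc_norm hφ) x).const_mul 4
  apply h1.mono'
  · exact (K_cont x).aestronglyMeasurable.smul hφ.aestronglyMeasurable
  · refine Eventually.of_forall fun y => ?_
    rw [norm_smul, Real.norm_eq_abs, abs_of_nonneg (K_nonneg x y), ← mul_assoc]
    exact mul_le_mul_of_nonneg_right (K_le_kk h x y) (norm_nonneg _)

theorem K_norm_le (h : Rad R) {φ : ℝ → E} (hφ : LocallyIntegrable φ) (x : ℝ) :
    ∫ y, ‖K R x y • φ y‖ ≤ 4 * Mv R (fun y => ‖φ y‖) x := by
  unfold Mv
  rw [← integral_const_mul]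
  apply integral_mono (K_mul_int h hφ x).norm ((kk_mul_int (R := R) (loc_norm hφ) x).const_mul 4)
  intro y
  simp only []
  rw [norm_smul, Real.norm_eq_abs, abs_of_nonneg (K_nonneg x y), ← mul_assoc]
  exact mul_le_mul_of_nonneg_right (K_le_kk h x y) (norm_nonneg _)

variable [CompleteSpace E]

theorem Av_sub_eq (h : Rad R) {φ : ℝ → E} (hφ : LocallyIntegrable φ) (x : ℝ) (h0 : 0 < R x)
    (c : E) : Av R φ x - c = ∫ y, K R x y • (φ y - c) := by
  unfold Av
  have hk : Integrable (fun y => K R x y) := by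
    have h2 := K_int x h0
    by_contra hcon
    rw [integral_undef hcon] at h2
    norm_num at h2
  simp_rw [smul_sub]
  rw [integral_sub (K_mul_int h hφ x) (hk.smul_const c), integral_smul_const, K_int x h0, one_smul]

/-- the tent average minus a constant -/
theorem Av_sub (h : Rad R) {φ : ℝ → E} (hφ : LocallyIntegrable φ) (x : ℝ) (h0 : 0 < R x)
    (c : E) : ‖Av R φ x - c‖ ≤ 4 * Mv R (fun y => ‖φ y - c‖) x := by
  rw [Av_sub_eq h hφ x h0 c]
  exact (norm_integral_le_integral_norm _).trans (K_norm_le h (loc_sub hφ c) x)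

omit [CompleteSpace E] in
/-- the size of the tent average -/
theorem Av_norm (h : Rad R) {φ : ℝ → E} (hφ : LocallyIntegrable φ) (x : ℝ) :
    ‖Av R φ x‖ ≤ 4 * Mv R (fun y => ‖φ y‖) x :=
  (norm_integral_le_integral_norm _).trans (K_norm_le h hφ x)

/-- the tent average is Lipschitz -/
theorem Av_lip (h : Rad R) {φ : ℝ → E} (hφ : LocallyIntegrable φ) (x x' : ℝ) (h0 : 0 < R x)
    (hx : |x' - x| ≤ R x / 16) (c : E) :
    ‖Av R φ x' - Av R φ x‖ ≤ 32 * (|x' - x| / R x) * Mv R (fun y => ‖φ y - c‖) x := by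
  have h0' : 0 < R x' := by
    have := abs_le.1 (h.lip x' x); linarith [this.1]
  have e : Av R φ x' - Av R φ x = ∫ y, (K R x' y - K R x y) • (φ y - c) := by
    have e1 := Av_sub_eq h hφ x h0 c
    have e2 := Av_sub_eq h hφ x' h0' c
    have : Av R φ x' - Av R φ x = (Av R φ x' - c) - (Av R φ x - c) := by abel
    rw [this, e1, e2, ← integral_sub (K_mul_int h (loc_sub hφ c) x')
      (K_mul_int h (loc_sub hφ c) x)]
    congr 1; funext y
    rw [sub_smul]
  rw [e]
  refine (norm_integral_le_integral_norm _).trans ?_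
  unfold Mv
  rw [← integral_const_mul]
  apply integral_mono_of_nonneg (Eventually.of_forall fun y => norm_nonneg _)
    ((kk_mul_int (R := R) (loc_norm (loc_sub hφ c)) x).const_mul _)
  refine Eventually.of_forall fun y => ?_
  simp only []
  rw [norm_smul, Real.norm_eq_abs, ← mul_assoc]
  exact mul_le_mul_of_nonneg_right (K_lip h x x' y h0 hx) (norm_nonneg _)

omit [CompleteSpace E] in
/-- bounded functions have bounded averages -/
theorem Av_bd (h : Rad R) {φ : ℝ → E} (hφ : LocallyIntegrable φ) (C : ℝ)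
    (hC : ∀ y, ‖φ y‖ ≤ C) (x : ℝ) : ‖Av R φ x‖ ≤ C := by
  have hC0 : 0 ≤ C := (norm_nonneg _).trans (hC x)
  rcases (h.nn x).eq_or_lt with h0 | h0
  · have : ∀ y, K R x y = 0 := by
      intro y; apply K_supp; rw [← h0]; simp
    unfold Av; simp [this, hC0]
  · have hk : Integrable (fun y => K R x y) := by
      have h2 := K_int x h0
      by_contra hcon
      rw [integral_undef hcon] at h2
      norm_num at h2
    refine (norm_integral_le_integral_norm _).trans ?_
    calc ∫ y, ‖K R x y • φ y‖ ≤ ∫ y, K R x y * C := by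
          apply integral_mono (K_mul_int h hφ x).norm (hk.mul_const C)
          intro y
          simp only []
          rw [norm_smul, Real.norm_eq_abs, abs_of_nonneg (K_nonneg x y)]
          exact mul_le_mul_of_nonneg_left (hC y) (K_nonneg x y)
      _ = C := by rw [integral_mul_const, K_int x h0, one_mul]

end

end Pool.Agent.H88.GT
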