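import Pool.Agent.H88.GT.Av2

/-!
# Averages with variable radius: the oscillation tends to zero
-/

namespace Pool.Agent.H88.GT

open MeasureTheory Set Filter Topology

variable {R : ℝ → ℝ}

section

variable {E : Type*} [NormedAddCommGroup E]

/-- oscillation of `φ` at `x` -/
noncomputable def osc (R : ℝ → ℝ) (φ : ℝ → E) (x : ℝ) : ℝ := Mv R (fun y => ‖φ y - φ x‖) x

theorem osc_nonneg (h : Rad R) (φ : ℝ → E) (x : ℝ) : 0 ≤ osc R φ x :=
  Mv_nonneg h (fun _ => norm_nonneg _) x

theorem Mv_const_le (h : Rad R) (c : ℝ) (hc : 0 ≤ c) (x : ℝ) : Mv R (fun _ => c) x ≤ c := by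
  unfold Mv
  rw [integral_mul_const]
  rcases (h.nn x).eq_or_lt with h0 | h0
  · have : ∀ y, kk R x y = 0 := by
      intro y; unfold kk; rw [if_neg]
      rw [← h0]; have := abs_nonneg (y - x); linarith
    simp [this, hc]
  · rw [kk_int x h0, one_mul]

/-- the oscillation is bounded for bounded functions -/
theorem osc_bd (h : Rad R) {φ : ℝ → E} (hφ : LocallyIntegrable φ) (C : ℝ)
    (hC : ∀ y, ‖φ y‖ ≤ C) (x : ℝ) : osc R φ x ≤ 2 * C := by
  have hC0 : 0 ≤ C := (norm_nonneg _).trans (hC x)
  refine (Mv_mono h (loc_norm (loc_sub hφ (φ x))) (locallyIntegrable_const (2 * C)) ?_ x).trans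
    (Mv_const_le h _ (by positivity) x)
  intro y
  have := norm_sub_le (φ y) (φ x)
  linarith [hC x, hC y]

theorem osc_meas (h : Rad R) {φ : ℝ → E} (hφ : StronglyMeasurable φ) :
    StronglyMeasurable (osc R φ) := by
  have : StronglyMeasurable (Function.uncurry fun x y => kk R x y * ‖φ y - φ x‖) :=
    (kk_meas h).stronglyMeasurable.mul
      ((hφ.comp_measurable measurable_snd).sub (hφ.comp_measurable measurable_fst)).norm
  exact this.integral_prod_right

theorem osc_triangle (h : Rad R) {φ g : ℝ → E} (hφ : LocallyIntegrable φ)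
    (hg : LocallyIntegrable g) (x : ℝ) :
    osc R φ x ≤ Mv R (fun y => ‖φ y - g y‖) x + osc R g x + ‖φ x - g x‖ := by
  have h1 : LocallyIntegrable (fun y => ‖φ y - g y‖) := loc_norm (hφ.sub hg)
  have h2 : LocallyIntegrable (fun y => ‖g y - g x‖) := loc_norm (loc_sub hg (g x))
  have h3 : LocallyIntegrable (fun _ : ℝ => ‖φ x - g x‖) := locallyIntegrable_const _
  calc osc R φ x ≤ Mv R (fun y => (‖φ y - g y‖ + ‖g y - g x‖) + ‖φ x - g x‖) x := by
        apply Mv_mono h (loc_norm (loc_sub hφ (φ x))) ((h1.add h2).add h3)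
        intro y
        have e : φ y - φ x = (φ y - g y) + (g y - g x) - (φ x - g x) := by abel
        rw [e]
        refine (norm_sub_le _ _).trans ?_
        have := norm_add_le (φ y - g y) (g y - g x)
        simp only [Pi.add_apply]
        linarith
    _ = Mv R (fun y => ‖φ y - g y‖ + ‖g y - g x‖) x + Mv R (fun _ => ‖φ x - g x‖) x :=
        Mv_add (h1.add h2) h3 x
    _ = Mv R (fun y => ‖φ y - g y‖) x + osc R g x + Mv R (fun _ => ‖φ x - g x‖) x := by
        rw [Mv_add h1 h2]; rfl
    _ ≤ _ := by
        have := Mv_const_le h ‖φ x - g x‖ (norm_nonneg _) x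
        linarith

variable [NormedSpace ℝ E]

/-- the oscillation tends to zero in the mean -/
theorem osc_small {φ : ℝ → E} (hφm : StronglyMeasurable φ) (hφ : Integrable φ) (ε : ℝ)
    (hε : 0 < ε) : ∃ δ > 0, ∀ R : ℝ → ℝ, Rad R → (∀ x, R x ≤ δ) →
      Integrable (osc R φ) ∧ ∫ x, osc R φ x ≤ ε := by
  obtain ⟨g, hgc, hgφ, hgcont, hgi⟩ := hφ.exists_hasCompactSupport_integral_sub_le
    (ε := ε / 8) (by positivity)
  obtain ⟨B, hB⟩ := hgc.isBounded.subset_closedBall (0 : ℝ)
  have hB1 : ∀ x, B < |x| → g x = 0 := by
    intro x hx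
    by_contra hcon
    have := hB (subset_tsupport g hcon)
    rw [mem_closedBall_zero_iff, Real.norm_eq_abs] at this
    linarith
  set B' := max B 0 + 1 with hB'
  have hB'0 : 0 < B' := by positivity
  have hu : UniformContinuous g := hgc.uniformContinuous_of_continuous hgcont
  rw [Metric.uniformContinuous_iff] at hu
  obtain ⟨δ, hδ, hu⟩ := hu (ε / (8 * B')) (by positivity)
  refine ⟨min δ 1, by positivity, fun R h hR => ?_⟩
  have hR1 : ∀ x, R x ≤ δ := fun x => (hR x).trans (min_le_left _ _)
  have hR2 : ∀ x, R x ≤ 1 := fun x => (hR x).trans (min_le_right _ _)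
  have hgl : LocallyIntegrable g := hgi.locallyIntegrable
  have hgo : ∀ x, osc R g x ≤ (Icc (-B') B').indicator (fun _ => ε / (8 * B')) x := by
    intro x
    have key : ∀ y, kk R x y * ‖g y - g x‖ ≤
        kk R x y * (Icc (-B') B').indicator (fun _ => ε / (8 * B')) x := by
      intro y
      by_cases hy : |y - x| < R x / 2
      · apply mul_le_mul_of_nonneg_left _ (kk_nonneg h x y)
        by_cases hx : x ∈ Icc (-B') B'
        · rw [indicator_of_mem hx, ← dist_eq_norm]
          apply (hu _).le
          rw [Real.dist_eq]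
          have := h.nn x
          have := hR1 x
          have := abs_nonneg (y - x)
          linarith
        · rw [indicator_of_notMem hx]
          have hxB : B' < |x| := by
            by_contra hcon
            exact hx (abs_le.1 (not_lt.1 hcon))
          have hyB : B < |y| := by
            have h1 : |x| ≤ |y| + |y - x| := by
              have := abs_sub_abs_le_abs_sub x y
              rw [abs_sub_comm] at this; linarith
            have := hR2 x
            have := le_max_left B 0
            linarith
          have hxB2 : B < |x| := by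
            have := le_max_left B 0
            linarith
          rw [hB1 y hyB, hB1 x hxB2]
          simp
      · have : kk R x y = 0 := by unfold kk; rw [if_neg hy]
        rw [this]; simp
    calc osc R g x ≤ Mv R (fun _ => (Icc (-B') B').indicator (fun _ => ε / (8 * B')) x) x := by
          apply integral_mono (kk_mul_int (loc_norm (loc_sub hgl (g x))) x)
            (kk_mul_int (locallyIntegrable_const _) x) key
      _ ≤ _ := Mv_const_le h _ (indicator_nonneg (fun _ _ => by positivity) _) x
  have hd : Integrable (fun y => ‖φ y - g y‖) := (hφ.sub hgi).norm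
  have hdm : Measurable (fun y => ‖φ y - g y‖) :=
    (hφm.sub hgcont.stronglyMeasurable).norm.measurable
  obtain ⟨i1, l1⟩ := Mv_L1 h hdm hd (fun y => norm_nonneg _)
  have hind : Integrable ((Icc (-B') B').indicator (fun _ => ε / (8 * B'))) := by
    rw [integrable_indicator_iff measurableSet_Icc]
    exact integrableOn_const (by simp) 
  have hle : ∀ x, osc R φ x ≤ Mv R (fun y => ‖φ y - g y‖) x +
      (Icc (-B') B').indicator (fun _ => ε / (8 * B')) x + ‖φ x - g x‖ := by
    intro x
    have := osc_triangle h hφ.locallyIntegrable hgl x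
    have := hgo x
    linarith
  have hi : Integrable (osc R φ) := by
    apply ((i1.add hind).add hd).mono' (osc_meas h hφm).aestronglyMeasurable
    refine Eventually.of_forall fun x => ?_
    rw [Real.norm_eq_abs, abs_of_nonneg (osc_nonneg h φ x)]
    exact hle x
  refine ⟨hi, ?_⟩
  calc ∫ x, osc R φ x ≤ ∫ x, (Mv R (fun y => ‖φ y - g y‖) x +
      (Icc (-B') B').indicator (fun _ => ε / (8 * B')) x + ‖φ x - g x‖) :=
        integral_mono hi ((i1.add hind).add hd) hle
    _ = (∫ x, Mv R (fun y => ‖φ y - g y‖) x) + (∫ x, (Icc (-B') B').indicator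
          (fun _ => ε / (8 * B')) x) + ∫ x, ‖φ x - g x‖ := by
        have e1 := integral_add (i1.add hind) hd
        have e2 := integral_add i1 hind
        simp only [Pi.add_apply] at e1 e2
        rw [e1, e2]
    _ ≤ 3 * (ε / 8) + ε / 4 + ε / 8 := by
        have e3 : ∫ x, (Icc (-B') B').indicator (fun _ => ε / (8 * B')) x = ε / 4 := by
          rw [integral_indicator measurableSet_Icc, setIntegral_const, Measure.real,
            Real.volume_Icc, ENNReal.toReal_ofReal (by linarith), smul_eq_mul]
          field_simp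
          ring
        rw [e3]
        linarith
    _ ≤ ε := by linarith

end

end Pool.Agent.H88.GT
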