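import Mathlib

/-!
# A strong type bound for radii of a given mass
-/

namespace Pool.Agent.H88.GT

open MeasureTheory Set Filter Topology

/-- the integral of `(z - x + ℓ)⁻²` -/
theorem lint_inv_sq (a z ℓ c : ℝ) (haz : a ≤ z) (hℓ : 0 < ℓ) (hc : 0 ≤ c) :
    ∫⁻ x in Ioo a z, ENNReal.ofReal (c / (z - x + ℓ) ^ 2) ≤ ENNReal.ofReal (c / ℓ) := by
  have hpos : ∀ x ∈ Icc a z, 0 < z - x + ℓ := fun x hx => by linarith [hx.2]
  have hd : ∀ x ∈ uIcc a z, HasDerivAt (fun x => c / (z - x + ℓ)) (c / (z - x + ℓ) ^ 2) x := by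
    intro x hx
    rw [uIcc_of_le haz] at hx
    have h1 := hpos x hx
    have h2 : HasDerivAt (fun x => z - x + ℓ) (-1) x := by
      have := ((hasDerivAt_id x).const_sub z).add_const ℓ
      simpa using this
    have h3 := (hasDerivAt_const x c).div h2 h1.ne'
    refine HasDerivAt.congr_deriv h3 ?_
    simp
  have hc1 : ContinuousOn (fun x => c / (z - x + ℓ) ^ 2) (uIcc a z) := by
    rw [uIcc_of_le haz]
    apply ContinuousOn.div continuousOn_const (by fun_prop)
    intro x hx
    have := hpos x hx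
    positivity
  have hint : IntervalIntegrable (fun x => c / (z - x + ℓ) ^ 2) volume a z :=
    hc1.intervalIntegrable
  have hI := intervalIntegral.integral_eq_sub_of_hasDerivAt hd hint
  have hio : IntegrableOn (fun x => c / (z - x + ℓ) ^ 2) (Ioc a z) :=
    (intervalIntegrable_iff_integrableOn_Ioc_of_le haz).1 hint
  calc ∫⁻ x in Ioo a z, ENNReal.ofReal (c / (z - x + ℓ) ^ 2)
      ≤ ∫⁻ x in Ioc a z, ENNReal.ofReal (c / (z - x + ℓ) ^ 2) :=
        lintegral_mono_set Ioo_subset_Ioc_self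
    _ = ENNReal.ofReal (∫ x in Ioc a z, c / (z - x + ℓ) ^ 2) := by
        rw [ofReal_integral_eq_lintegral_ofReal hio]
        exact Eventually.of_forall fun x => by positivity
    _ ≤ ENNReal.ofReal (c / ℓ) := by
        apply ENNReal.ofReal_le_ofReal
        rw [← intervalIntegral.integral_of_le haz, hI]
        have h1 : z - z + ℓ = ℓ := by ring
        rw [h1]
        have : 0 ≤ c / (z - a + ℓ) := div_nonneg hc (by linarith)
        linarith

/-- the Cauchy-Schwarz inequality on an interval -/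
theorem cs_int (f : ℝ → ℝ) (a b : ℝ) (hab : a ≤ b) (h1 : IntegrableOn f (Ioc a b))
    (h2 : IntegrableOn (fun x => f x ^ 2) (Ioc a b)) :
    (∫ x in a..b, f x) ^ 2 ≤ (b - a) * ∫ x in a..b, f x ^ 2 := by
  rw [intervalIntegral.integral_of_le hab, intervalIntegral.integral_of_le hab]
  set m := ∫ x in Ioc a b, f x with hm
  rcases hab.eq_or_lt with h | h
  · subst h; simp [hm]
  · have hba : 0 < b - a := by linarith
    have h3 : 0 ≤ ∫ x in Ioc a b, (f x - m / (b - a)) ^ 2 :=
      integral_nonneg fun x => sq_nonneg _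
    have e : ∫ x in Ioc a b, (f x - m / (b - a)) ^ 2 =
        (∫ x in Ioc a b, f x ^ 2) - 2 * (m / (b - a)) * m + (m / (b - a)) ^ 2 * (b - a) := by
      have e1 : ∀ x, (f x - m / (b - a)) ^ 2 =
          (f x ^ 2 - (2 * (m / (b - a))) * f x) + (m / (b - a)) ^ 2 := fun x => by ring
      simp_rw [e1]
      have i1 : IntegrableOn (fun x => (2 * (m / (b - a))) * f x) (Ioc a b) := h1.const_mul _
      have i2 : IntegrableOn (fun x => f x ^ 2 - (2 * (m / (b - a))) * f x) (Ioc a b) :=
        h2.sub i1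
      have i3 : IntegrableOn (fun _ : ℝ => (m / (b - a)) ^ 2) (Ioc a b) :=
        integrableOn_const (by simp)
      rw [integral_add i2 i3, integral_sub h2 i1, integral_const_mul, ← hm, setIntegral_const,
        Measure.real, Real.volume_Ioc, ENNReal.toReal_ofReal hba.le, smul_eq_mul]
      ring
    rw [e] at h3
    have h4 : (∫ x in Ioc a b, f x ^ 2) - m ^ 2 / (b - a) ≥ 0 := by
      have : (∫ x in Ioc a b, f x ^ 2) - 2 * (m / (b - a)) * m + (m / (b - a)) ^ 2 * (b - a) =
        (∫ x in Ioc a b, f x ^ 2) - m ^ 2 / (b - a) := by field_simp; ring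
      linarith
    have h5 : m ^ 2 / (b - a) ≤ ∫ x in Ioc a b, f x ^ 2 := by linarith
    rw [div_le_iff₀ hba] at h5
    linarith

/-- one-sided version -/
theorem NB_plus (f : ℝ → ℝ) (l u : ℝ) (hlu : l < u) (h0 : ∀ x, 0 ≤ f x)
    (h1 : IntegrableOn f (Ioc l u)) (h2 : IntegrableOn (fun x => f x ^ 2) (Ioc l u))
    (h : ℝ) (hh : 0 < h) (ρ : ℝ → ℝ) (E : Set ℝ)
    (hE : ∀ x ∈ E, l ≤ x ∧ 0 < ρ x ∧ x + ρ x ≤ u ∧ h ≤ ∫ z in x..(x + ρ x), f z) :
    ∫⁻ x in E, ENNReal.ofReal ((h / ρ x) ^ 2) ≤
      ENNReal.ofReal (16 * ∫ x in l..u, f x ^ 2) := by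
  set η := h / 4 with hη
  have hη0 : 0 < η := by positivity
  have hI : ∀ a b, l ≤ a → a ≤ b → b ≤ u → IntervalIntegrable f volume a b := by
    intro a b ha hab hb
    rw [intervalIntegrable_iff_integrableOn_Ioc_of_le hab]
    exact h1.mono_set (Ioc_subset_Ioc ha hb)
  have hI2 : ∀ a b, l ≤ a → a ≤ b → b ≤ u →
      IntervalIntegrable (fun x => f x ^ 2) volume a b := by
    intro a b ha hab hb
    rw [intervalIntegrable_iff_integrableOn_Ioc_of_le hab]
    exact h2.mono_set (Ioc_subset_Ioc ha hb)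
  set P : ℝ → ℝ := fun x => ∫ z in l..x, f z with hP
  have hPd : ∀ a b, l ≤ a → a ≤ b → b ≤ u → P b - P a = ∫ z in a..b, f z := by
    intro a b ha hab hb
    simp only [hP]
    rw [intervalIntegral.integral_interval_sub_left]
    · exact hI l b le_rfl (ha.trans hab) hb
    · exact hI l a le_rfl ha (hab.trans hb)
  have hPm : ∀ a b, l ≤ a → a ≤ b → b ≤ u → P a ≤ P b := by
    intro a b ha hab hb
    have := hPd a b ha hab hb
    have h3 : 0 ≤ ∫ z in a..b, f z := intervalIntegral.integral_nonneg hab fun x _ => h0 x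
    linarith
  have hPl : P l = 0 := by simp [hP]
  have hPc : ContinuousOn P (Icc l u) := by
    have := intervalIntegral.continuousOn_primitive_interval' (b₁ := l) (b₂ := u) (a := l)
      (hI l u le_rfl hlu.le le_rfl) left_mem_uIcc
    rw [uIcc_of_le hlu.le] at this
    exact this
  -- the division points
  obtain ⟨N, hN1, hN2⟩ : ∃ N : ℕ, (N : ℝ) * η ≤ P u ∧ P u < (N + 1 : ℕ) * η := by
    have hPu : 0 ≤ P u := by have := hPm l u le_rfl hlu.le le_rfl; linarith
    refine ⟨⌊P u / η⌋₊, ?_, ?_⟩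
    · have := Nat.floor_le (div_nonneg hPu hη0.le)
      rwa [le_div_iff₀ hη0] at this
    · have := Nat.lt_floor_add_one (P u / η)
      rw [div_lt_iff₀ hη0] at this
      push_cast; exact this
  have hz : ∀ k : ℕ, ∃ z ∈ Icc l u, k ≤ N → P z = k * η := by
    intro k
    by_cases hk : k ≤ N
    · have hmem : (k : ℝ) * η ∈ Icc (P l) (P u) := by
        rw [hPl]
        refine ⟨by positivity, le_trans ?_ hN1⟩
        have : (k : ℝ) ≤ N := by exact_mod_cast hk
        gcongr
      obtain ⟨z, hz1, hz2⟩ := intermediate_value_Icc hlu.le hPc hmem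
      exact ⟨z, hz1, fun _ => hz2⟩
    · exact ⟨l, left_mem_Icc.2 hlu.le, fun h => absurd h hk⟩
  choose z hzI hzP using hz
  have hzmono : ∀ i j, i ≤ j → j ≤ N → z i ≤ z j := by
    intro i j hij hj
    by_contra hcon
    push Not at hcon
    have h3 := hPm (z j) (z i) (hzI j).1 hcon.le (hzI i).2
    rw [hzP j hj, hzP i (hij.trans hj)] at h3
    have h4 : (j : ℝ) ≤ i := le_of_mul_le_mul_right h3 hη0
    have h5 : j ≤ i := by exact_mod_cast h4
    have h6 : i = j := le_antisymm hij h5
    rw [h6] at hcon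
    exact lt_irrefl _ hcon
  have hzlt : ∀ i, i + 1 ≤ N → z i < z (i + 1) := by
    intro i hi
    rcases (hzmono i (i + 1) (by omega) hi).eq_or_lt with h3 | h3
    · exfalso
      have h4 := hzP i (by omega)
      have h5 := hzP (i + 1) hi
      rw [← h3, h4] at h5
      push_cast at h5
      linarith
    · exact h3
  -- the blocks
  set B : ℕ → Set ℝ := fun k => E ∩ {x | (k : ℝ) * η ≤ P x ∧ P x < (k + 1 : ℕ) * η} with hB
  have hPx : ∀ x ∈ E, P x + h ≤ P (x + ρ x) := by
    intro x hx
    obtain ⟨e1, e2, e3, e4⟩ := hE x hx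
    have := hPd x (x + ρ x) e1 (by linarith) e3
    linarith
  have hblock : ∀ x k, x ∈ B k → k + 4 ≤ N ∧ x < z (k + 1) ∧ z (k + 2) ≤ x + ρ x := by
    intro x k hx
    obtain ⟨hxE, hx1, hx2⟩ := hx
    obtain ⟨e1, e2, e3, e4⟩ := hE x hxE
    have h3 := hPx x hxE
    have h4 : ((k + 4 : ℕ) : ℝ) * η ≤ P (x + ρ x) := by
      push_cast
      have : h = 4 * η := by rw [hη]; ring
      nlinarith
    have h5 : P (x + ρ x) ≤ P u := hPm _ _ (by linarith) e3 le_rfl
    have h6 : k + 4 ≤ N := by
      have : ((k + 4 : ℕ) : ℝ) * η < (N + 1 : ℕ) * η := by linarith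
      have := lt_of_mul_lt_mul_right this hη0.le
      have : k + 4 < N + 1 := by exact_mod_cast this
      omega
    refine ⟨h6, ?_, ?_⟩
    · by_contra hcon
      push Not at hcon
      have h7 := hPm (z (k + 1)) x (hzI _).1 hcon (by linarith)
      rw [hzP (k + 1) (by omega)] at h7
      linarith
    · by_contra hcon
      push Not at hcon
      have h7 := hPm (x + ρ x) (z (k + 2)) (by linarith) hcon.le (hzI _).2
      rw [hzP (k + 2) (by omega)] at h7
      have : ((k + 2 : ℕ) : ℝ) < (k + 4 : ℕ) := by exact_mod_cast (by omega : k + 2 < k + 4)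
      nlinarith
  have hcover : E ⊆ ⋃ k ∈ Finset.range N, B k := by
    intro x hx
    obtain ⟨e1, e2, e3, e4⟩ := hE x hx
    have hPx0 : 0 ≤ P x := by
      have := hPm l x le_rfl e1 (by linarith)
      linarith
    have hmem : x ∈ B ⌊P x / η⌋₊ := by
      refine ⟨hx, ?_, ?_⟩
      · have := Nat.floor_le (div_nonneg hPx0 hη0.le)
        rwa [le_div_iff₀ hη0] at this
      · have := Nat.lt_floor_add_one (P x / η)
        rw [div_lt_iff₀ hη0] at this
        push_cast; exact this
    have h3 := (hblock x _ hmem).1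
    simp only [mem_iUnion, Finset.mem_range]
    exact ⟨_, by omega, hmem⟩
  have hb : ∀ k, ∫⁻ x in B k, ENNReal.ofReal ((h / ρ x) ^ 2) ≤
      if k + 2 ≤ N then ENNReal.ofReal (16 * ∫ x in (z (k + 1))..(z (k + 2)), f x ^ 2) else 0 := by
    intro k
    split_ifs with hk
    · set ℓ := z (k + 2) - z (k + 1) with hℓ
      have hℓ0 : 0 < ℓ := by have := hzlt (k + 1) hk; rw [hℓ]; linarith
      have hmeas : Measurable fun x => ENNReal.ofReal (h ^ 2 / (z (k + 1) - x + ℓ) ^ 2) := by
        fun_prop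
      calc ∫⁻ x in B k, ENNReal.ofReal ((h / ρ x) ^ 2)
          ≤ ∫⁻ x in B k, ENNReal.ofReal (h ^ 2 / (z (k + 1) - x + ℓ) ^ 2) := by
            apply setLIntegral_mono hmeas
            intro x hx
            obtain ⟨h3, h4, h5⟩ := hblock x k hx
            obtain ⟨e1, e2, e3, e4⟩ := hE x hx.1
            apply ENNReal.ofReal_le_ofReal
            rw [div_pow]
            have h6 : 0 < z (k + 1) - x + ℓ := by linarith
            have h7 : z (k + 1) - x + ℓ ≤ ρ x := by rw [hℓ]; linarith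
            gcongr
        _ ≤ ∫⁻ x in Ioo (l - 1) (z (k + 1)), ENNReal.ofReal (h ^ 2 / (z (k + 1) - x + ℓ) ^ 2) := by
            apply lintegral_mono_set
            intro x hx
            obtain ⟨e1, e2, e3, e4⟩ := hE x hx.1
            exact ⟨by linarith, (hblock x k hx).2.1⟩
        _ ≤ ENNReal.ofReal (h ^ 2 / ℓ) :=
            lint_inv_sq _ _ _ _ (by linarith [(hzI (k + 1)).1]) hℓ0 (sq_nonneg _)
        _ ≤ ENNReal.ofReal (16 * ∫ x in (z (k + 1))..(z (k + 2)), f x ^ 2) := by
            apply ENNReal.ofReal_le_ofReal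
            have hle : z (k + 1) ≤ z (k + 2) := by linarith
            have h3 := cs_int f (z (k + 1)) (z (k + 2)) hle
              (h1.mono_set (Ioc_subset_Ioc (hzI _).1 (hzI _).2))
              (h2.mono_set (Ioc_subset_Ioc (hzI _).1 (hzI _).2))
            rw [← hPd _ _ (hzI _).1 hle (hzI _).2, hzP (k + 1) (by omega), hzP (k + 2) hk] at h3
            rw [div_le_iff₀ hℓ0]
            push_cast at h3
            have h4 : ((k : ℝ) + 2) * η - ((k : ℝ) + 1) * η = h / 4 := by rw [hη]; ring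
            rw [h4, ← hℓ] at h3
            nlinarith
    · have : B k = ∅ := by
        rw [eq_empty_iff_forall_notMem]
        intro x hx
        have := (hblock x k hx).1
        omega
      rw [this]; simp
  calc ∫⁻ x in E, ENNReal.ofReal ((h / ρ x) ^ 2)
      ≤ ∫⁻ x in ⋃ k ∈ Finset.range N, B k, ENNReal.ofReal ((h / ρ x) ^ 2) :=
        lintegral_mono_set hcover
    _ ≤ ∑ k ∈ Finset.range N, ∫⁻ x in B k, ENNReal.ofReal ((h / ρ x) ^ 2) := by
        have hcl : ∀ s : Finset ℕ, ∫⁻ x in ⋃ k ∈ s, B k, ENNReal.ofReal ((h / ρ x) ^ 2) ≤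
            ∑ k ∈ s, ∫⁻ x in B k, ENNReal.ofReal ((h / ρ x) ^ 2) := by
          intro s
          induction s using Finset.induction_on with
          | empty => simp
          | insert a s ha ih =>
            rw [Finset.sum_insert ha, Finset.set_biUnion_insert]
            refine (lintegral_union_le _ _ _).trans ?_
            gcongr
        exact hcl _
    _ ≤ ∑ k ∈ Finset.range N, if k + 2 ≤ N then
          ENNReal.ofReal (16 * ∫ x in (z (k + 1))..(z (k + 2)), f x ^ 2) else 0 :=
        Finset.sum_le_sum fun k _ => hb k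
    _ = ∑ k ∈ Finset.range (N - 1),
          ENNReal.ofReal (16 * ∫ x in (z (k + 1))..(z (k + 2)), f x ^ 2) := by
        rw [← Finset.sum_filter]
        apply Finset.sum_congr _ (fun _ _ => rfl)
        ext k
        simp only [Finset.mem_filter, Finset.mem_range]
        omega
    _ = ENNReal.ofReal (∑ k ∈ Finset.range (N - 1),
          16 * ∫ x in (z (k + 1))..(z (k + 2)), f x ^ 2) := by
        rw [ENNReal.ofReal_sum_of_nonneg]
        intro k hk
        rw [Finset.mem_range] at hk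
        exact mul_nonneg (by norm_num) (intervalIntegral.integral_nonneg
          (hzmono _ _ (by omega) (by omega)) fun x _ => sq_nonneg _)
    _ ≤ ENNReal.ofReal (16 * ∫ x in l..u, f x ^ 2) := by
        apply ENNReal.ofReal_le_ofReal
        rw [← Finset.mul_sum]
        apply mul_le_mul_of_nonneg_left _ (by norm_num : (0:ℝ) ≤ 16)
        rcases Nat.lt_or_ge N 2 with hN | hN
        · have : N - 1 = 0 := by omega
          rw [this, Finset.range_zero, Finset.sum_empty]
          exact intervalIntegral.integral_nonneg hlu.le fun x _ => sq_nonneg _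
        · have hs := intervalIntegral.sum_integral_adjacent_intervals (f := fun x => f x ^ 2)
            (μ := volume) (a := fun k => z (k + 1)) (n := N - 1) (by
              intro k hk
              exact hI2 _ _ (hzI _).1 (hzmono _ _ (by omega) (by omega)) (hzI _).2)
          have hs' : ∑ k ∈ Finset.range (N - 1), ∫ x in (z (k + 1))..(z (k + 2)), f x ^ 2 =
              ∫ x in (z 1)..(z N), f x ^ 2 := by
            have e : N - 1 + 1 = N := by omega
            rw [e] at hs
            simpa using hs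
          rw [hs', intervalIntegral.integral_of_le (hzmono _ _ (by omega) le_rfl),
            intervalIntegral.integral_of_le hlu.le]
          apply setIntegral_mono_set h2 (Eventually.of_forall fun x => sq_nonneg _)
          exact (Ioc_subset_Ioc (hzI _).1 (hzI _).2).eventuallyLE

/-- strong type bound for radii of balls of mass at least `r` -/
theorem NB (f : ℝ → ℝ) (l u : ℝ) (hlu : l < u) (h0 : ∀ x, 0 ≤ f x)
    (h1 : IntegrableOn f (Ioc l u)) (h2 : IntegrableOn (fun x => f x ^ 2) (Ioc l u))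
    (r : ℝ) (hr : 0 < r) (ρ : ℝ → ℝ) (E : Set ℝ)
    (hE : ∀ x ∈ E, l ≤ x - ρ x ∧ 0 < ρ x ∧ x + ρ x ≤ u ∧
      r ≤ ∫ z in (x - ρ x)..(x + ρ x), f z) :
    ∫⁻ x in E, ENNReal.ofReal ((r / ρ x) ^ 2) ≤
      ENNReal.ofReal (128 * ∫ x in l..u, f x ^ 2) := by
  have hI : ∀ a b, l ≤ a → a ≤ b → b ≤ u → IntervalIntegrable f volume a b := by
    intro a b ha hab hb
    rw [intervalIntegrable_iff_integrableOn_Ioc_of_le hab]
    exact h1.mono_set (Ioc_subset_Ioc ha hb)
  set Ep : Set ℝ := {x | x ∈ E ∧ r / 2 ≤ ∫ z in x..(x + ρ x), f z} with hEp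
  set Em : Set ℝ := {x | x ∈ E ∧ r / 2 ≤ ∫ z in (x - ρ x)..x, f z} with hEm
  have hsub : E ⊆ Ep ∪ Em := by
    intro x hx
    obtain ⟨e1, e2, e3, e4⟩ := hE x hx
    have h3 := intervalIntegral.integral_add_adjacent_intervals
      (hI (x - ρ x) x e1 (by linarith) (by linarith)) (hI x (x + ρ x) (by linarith) (by linarith) e3)
    by_cases hp : r / 2 ≤ ∫ z in x..(x + ρ x), f z
    · exact Or.inl ⟨hx, hp⟩
    · refine Or.inr ⟨hx, ?_⟩
      push Not at hp
      linarith
  have hfac : ∀ x, ENNReal.ofReal ((r / ρ x) ^ 2) = 4 * ENNReal.ofReal ((r / 2 / ρ x) ^ 2) := by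
    intro x
    have : (4 : ENNReal) = ENNReal.ofReal 4 := by norm_num
    rw [this, ← ENNReal.ofReal_mul (by norm_num)]
    congr 1
    ring
  have hplus := NB_plus f l u hlu h0 h1 h2 (r / 2) (by positivity) ρ Ep (by
    rintro x ⟨hx, hx2⟩
    obtain ⟨e1, e2, e3, e4⟩ := hE x hx
    exact ⟨by linarith, e2, e3, hx2⟩)
  have hneg1 : IntegrableOn (fun x => f (-x)) (Ioc (-u) (-l)) := by
    have h3 : IntervalIntegrable f volume l u := hI l u le_rfl hlu.le le_rfl
    have h4 := (IntervalIntegrable.iff_comp_neg (f := f) (a := l) (b := u)).1 h3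
    have h5 := h4.symm
    exact (intervalIntegrable_iff_integrableOn_Ioc_of_le (by linarith)).1 h5
  have hneg2 : IntegrableOn (fun x => f (-x) ^ 2) (Ioc (-u) (-l)) := by
    have h3 : IntervalIntegrable (fun x => f x ^ 2) volume l u :=
      (intervalIntegrable_iff_integrableOn_Ioc_of_le hlu.le).2 h2
    have h4 := (IntervalIntegrable.iff_comp_neg (f := fun x => f x ^ 2) (a := l) (b := u)).1 h3
    have h5 := h4.symm
    exact (intervalIntegrable_iff_integrableOn_Ioc_of_le (by linarith)).1 h5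
  have hminus := NB_plus (fun x => f (-x)) (-u) (-l) (by linarith) (fun x => h0 _) hneg1 hneg2
    (r / 2) (by positivity) (fun x => ρ (-x)) (Neg.neg ⁻¹' Em) (by
    rintro x ⟨hx, hx2⟩
    obtain ⟨e1, e2, e3, e4⟩ := hE (-x) hx
    refine ⟨by linarith, e2, by linarith, ?_⟩
    have h3 := intervalIntegral.integral_comp_neg (a := x) (b := x + ρ (-x)) (fun z => f z)
    rw [h3]
    have e : -(x + ρ (-x)) = -x - ρ (-x) := by ring
    rw [e]
    exact hx2)
  have hcomp := (Measure.measurePreserving_neg (volume : Measure ℝ)).setLIntegral_comp_preimage_emb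
    (MeasurableEquiv.neg ℝ).measurableEmbedding (fun x => ENNReal.ofReal ((r / 2 / ρ x) ^ 2)) Em
  rw [hcomp] at hminus
  have hsq : ∫ x in (-u)..(-l), f (-x) ^ 2 = ∫ x in l..u, f x ^ 2 := by
    have := intervalIntegral.integral_comp_neg (a := -u) (b := -l) (fun z => f z ^ 2)
    simpa using this
  rw [hsq] at hminus
  calc ∫⁻ x in E, ENNReal.ofReal ((r / ρ x) ^ 2)
      ≤ ∫⁻ x in Ep ∪ Em, ENNReal.ofReal ((r / ρ x) ^ 2) := lintegral_mono_set hsub
    _ ≤ (∫⁻ x in Ep, ENNReal.ofReal ((r / ρ x) ^ 2)) +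
          ∫⁻ x in Em, ENNReal.ofReal ((r / ρ x) ^ 2) := lintegral_union_le _ _ _
    _ = 4 * (∫⁻ x in Ep, ENNReal.ofReal ((r / 2 / ρ x) ^ 2)) +
          4 * ∫⁻ x in Em, ENNReal.ofReal ((r / 2 / ρ x) ^ 2) := by
        simp_rw [hfac]
        rw [lintegral_const_mul' _ _ (by norm_num), lintegral_const_mul' _ _ (by norm_num)]
    _ ≤ 4 * ENNReal.ofReal (16 * ∫ x in l..u, f x ^ 2) +
          4 * ENNReal.ofReal (16 * ∫ x in l..u, f x ^ 2) := by gcongr
    _ = ENNReal.ofReal (128 * ∫ x in l..u, f x ^ 2) := by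
        have : (4 : ENNReal) = ENNReal.ofReal 4 := by norm_num
        have h3 : 0 ≤ ∫ x in l..u, f x ^ 2 :=
          intervalIntegral.integral_nonneg hlu.le fun x _ => sq_nonneg _
        rw [this, ← ENNReal.ofReal_mul (by norm_num), ← ENNReal.ofReal_add (by positivity)
          (by positivity)]
        congr 1
        ring

end Pool.Agent.H88.GT
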